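import Mathlib

/-!
# Groups with a normal Sylow subgroup of prime order have a large metabelian quotient

If `p` divides `n = |G|` exactly once and no divisor `d > 1` of `n` is `1` modulo `p`, then
`|G : G''| ≥ p`.
-/

namespace Pool.Agent.Lib.MP_688fd0_co.DEN

open Subgroup

theorem le_index {G : Type*} [Group G] [Finite G] {p : ℕ} (hp : p.Prime)
    (h1 : p ∣ Nat.card G) (h2 : ¬ p ^ 2 ∣ Nat.card G)
    (h3 : ∀ d, d ∣ Nat.card G → d ≡ 1 [MOD p] → d = 1) : p ≤ (derivedSeries G 2).index := by
  haveI : Fact p.Prime := ⟨hp⟩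
  obtain ⟨P⟩ : Nonempty (Sylow p G) := inferInstance
  have hcs : Nat.card (Sylow p G) = 1 := by
    refine h3 _ ?_ (card_sylow_modEq_one p G)
    exact (P.card_dvd_index).trans (P : Subgroup G).index_dvd_card
  haveI : Subsingleton (Sylow p G) := (Nat.card_eq_one_iff_unique.1 hcs).1
  haveI hPn : (P : Subgroup G).Normal := Sylow.normal_of_subsingleton P
  have hcard : Nat.card (P : Subgroup G) = p := by
    have h := P.card_eq_multiplicity
    have hne : Nat.card G ≠ 0 := Nat.card_pos.ne'
    have hf1 : 1 ≤ (Nat.card G).factorization p :=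
      (hp.dvd_iff_one_le_factorization hne).1 h1
    have hf2 : (Nat.card G).factorization p < 2 := by
      by_contra hcon
      exact h2 ((hp.pow_dvd_iff_le_factorization hne).2 (by omega))
    rw [h, show (Nat.card G).factorization p = 1 by omega, pow_one]
  haveI hcyc : IsCyclic (P : Subgroup G) := isCyclic_of_prime_card hcard
  have hcomm : ∀ a b : (P : Subgroup G), a * b = b * a := fun a b => by
    obtain ⟨g, hg⟩ := hcyc.exists_generator
    obtain ⟨i, rfl⟩ := Subgroup.mem_zpowers_iff.1 (hg a)
    obtain ⟨j, rfl⟩ := Subgroup.mem_zpowers_iff.1 (hg b)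
    rw [← zpow_add, ← zpow_add, add_comm]
  set Z : Subgroup G := centralizer ((P : Subgroup G) : Set G) with hZ
  -- the derived subgroup centralises `P`
  have hG' : derivedSeries G 1 ≤ Z := by
    rw [derivedSeries_one, commutator_def, Subgroup.commutator_le]
    intro g _ h _
    have hauto : ∀ u v : MulAut (P : Subgroup G), u * v = v * u := fun u v => by
      apply (IsCyclic.mulAutMulEquiv (P : Subgroup G)).injective
      rw [map_mul, map_mul, mul_comm]
    rw [commutatorElement_def]
    have hone : MulAut.conjNormal (H := (P : Subgroup G)) (g * h * g⁻¹ * h⁻¹) = 1 := by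
      rw [map_mul, map_mul, map_mul, hauto (MulAut.conjNormal g) (MulAut.conjNormal h), map_inv,
        map_inv]
      group
    rw [hZ, Subgroup.mem_centralizer_iff]
    intro x hx
    have := congrArg (fun f : MulAut (P : Subgroup G) => ((f ⟨x, hx⟩ : (P : Subgroup G)) : G)) hone
    simp only [MulAut.conjNormal_apply, MulAut.one_apply] at this
    rw [mul_inv_eq_iff_eq_mul] at this
    exact this.symm
  have hPZ : (P : Subgroup G) ≤ Z := by
    intro x hx
    rw [hZ, Subgroup.mem_centralizer_iff]
    intro y hy
    exact congrArg Subtype.val (hcomm ⟨y, hy⟩ ⟨x, hx⟩)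
  -- the normal complement in the centraliser
  let Q : Sylow p Z := P.subtype hPZ
  have hQcomm : ∀ a ∈ (Q : Subgroup Z), ∀ b : Z, a * b = b * a := by
    intro a ha b
    have ha' : (a : G) ∈ (P : Subgroup G) := by
      simpa [Q, Sylow.subtype, Subgroup.mem_subgroupOf] using ha
    have hb : (b : G) ∈ centralizer ((P : Subgroup G) : Set G) := b.2
    rw [Subgroup.mem_centralizer_iff] at hb
    exact Subtype.ext (hb a ha')
  have hN : normalizer ((Q : Subgroup Z) : Set Z) ≤ centralizer ((Q : Subgroup Z) : Set Z) := by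
    intro b _
    rw [Subgroup.mem_centralizer_iff]
    exact fun a ha => hQcomm a ha b
  have hndvd := MonoidHom.not_dvd_card_ker_transferSylow Q hN
  set K := (MonoidHom.transferSylow Q hN).ker with hK
  have hcK : ⁅(⊤ : Subgroup Z), (⊤ : Subgroup Z)⁆ ≤ K := by
    rw [Subgroup.commutator_le]
    intro g _ h _
    rw [hK, MonoidHom.mem_ker, map_commutatorElement, commutatorElement_eq_one_iff_mul_comm]
    exact Subtype.ext (hQcomm _ (Subtype.mem _) _)
  have h2le : derivedSeries G 2 ≤ K.map Z.subtype := by
    have : derivedSeries G 2 = ⁅derivedSeries G 1, derivedSeries G 1⁆ := derivedSeries_succ G 1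
    rw [this]
    refine (Subgroup.commutator_mono hG' hG').trans ?_
    have hZZ : ⁅Z, Z⁆ = (⁅(⊤ : Subgroup Z), (⊤ : Subgroup Z)⁆).map Z.subtype := by
      rw [Subgroup.map_commutator, ← MonoidHom.range_eq_map, Subgroup.range_subtype]
    rw [hZZ]
    exact Subgroup.map_mono hcK
  have hpd : ¬ p ∣ Nat.card (derivedSeries G 2) := by
    intro hd
    apply hndvd
    have := hd.trans (Subgroup.card_dvd_of_le h2le)
    rwa [Nat.card_congr (K.equivMapOfInjective Z.subtype Z.subtype_injective).symm.toEquiv] at this
  have hmul : Nat.card (derivedSeries G 2) * (derivedSeries G 2).index = Nat.card G :=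
    (derivedSeries G 2).card_mul_index
  have hdi : p ∣ (derivedSeries G 2).index := by
    rcases (hp.dvd_mul.1 (hmul.symm ▸ h1)) with h | h
    · exact absurd h hpd
    · exact h
  exact Nat.le_of_dvd (Nat.pos_of_ne_zero (derivedSeries G 2).index_ne_zero_of_finite) hdi

end Pool.Agent.Lib.MP_688fd0_co.DEN
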