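import Pool.Agent.Lib.MP_02fec8_nt.Mert

/-!
# Almost all integers have a large prime factor `p` such that no other divisor is `1` modulo `p`
-/

namespace Pool.Agent.Lib.MP_688fd0_co.DEN

open Finset Filter Topology

/-- `n` has a prime factor `p ≥ C`, exactly once, and `1` is the only divisor of `n` which is `1` modulo `p` -/
def Fine (C n : ℕ) : Prop :=
  ∃ p, p.Prime ∧ C ≤ p ∧ p ∣ n ∧ ¬ p ^ 2 ∣ n ∧ ∀ d, d ∣ n → d ≡ 1 [MOD p] → d = 1

lemma card_dvd_le (x m : ℕ) : (((Ioc 0 x).filter fun n => m ∣ n).card : ℝ) ≤ x / m := by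
  rw [Nat.Ioc_filter_dvd_card_eq_div]
  exact Nat.cast_div_le

/-- integers with a square factor `p ^ 2`, `p > Z` -/
lemma card_sq (x Z : ℕ) (hZ : Z ≠ 0) :
    (((Ioc 0 x).filter fun n => ∃ p ∈ Ioc Z x, p ^ 2 ∣ n).card : ℝ) ≤ x / Z := by
  have hsub : ((Ioc 0 x).filter fun n => ∃ p ∈ Ioc Z x, p ^ 2 ∣ n) ⊆
      (Ioc Z x).biUnion fun p => (Ioc 0 x).filter fun n => p ^ 2 ∣ n := by
    intro n hn
    obtain ⟨hn1, p, hp, hd⟩ := mem_filter.1 hn
    exact mem_biUnion.2 ⟨p, hp, mem_filter.2 ⟨hn1, hd⟩⟩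
  have h1 : (((Ioc 0 x).filter fun n => ∃ p ∈ Ioc Z x, p ^ 2 ∣ n).card : ℝ) ≤
      ∑ p ∈ Ioc Z x, (x : ℝ) * ((p : ℝ) ^ 2)⁻¹ := by
    calc (((Ioc 0 x).filter fun n => ∃ p ∈ Ioc Z x, p ^ 2 ∣ n).card : ℝ)
        ≤ (((Ioc Z x).biUnion fun p => (Ioc 0 x).filter fun n => p ^ 2 ∣ n).card : ℝ) := by
          exact_mod_cast card_le_card hsub
      _ ≤ ((∑ p ∈ Ioc Z x, ((Ioc 0 x).filter fun n => p ^ 2 ∣ n).card : ℕ) : ℝ) := by
          exact_mod_cast card_biUnion_le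
      _ = ∑ p ∈ Ioc Z x, (((Ioc 0 x).filter fun n => p ^ 2 ∣ n).card : ℝ) := by push_cast; rfl
      _ ≤ ∑ p ∈ Ioc Z x, (x : ℝ) * ((p : ℝ) ^ 2)⁻¹ := by
          refine sum_le_sum fun p _ => ?_
          have := card_dvd_le x (p ^ 2)
          rwa [Nat.cast_pow, div_eq_mul_inv] at this
  rcases le_or_gt Z x with hx | hx
  · have h2 := sum_Ioc_inv_sq_le_sub (α := ℝ) hZ hx
    rw [← mul_sum] at h1
    calc _ ≤ _ := h1
      _ ≤ (x : ℝ) * ((Z : ℝ)⁻¹ - (x : ℝ)⁻¹) := by gcongr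
      _ ≤ x / Z := by
          rw [div_eq_mul_inv]
          gcongr
          have : (0 : ℝ) ≤ (x : ℝ)⁻¹ := by positivity
          linarith
  · have h3 : ∑ p ∈ Ioc Z x, (x : ℝ) * ((p : ℝ) ^ 2)⁻¹ = 0 := by
      rw [Ioc_eq_empty (by omega), sum_empty]
    exact h1.trans (h3.le.trans (by positivity))

/-- integers with a factor `p (1 + j p)`, `p > Z` -/
lemma card_one (x Z : ℕ) (hZ : Z ≠ 0) :
    (((Ioc 0 x).filter fun n => ∃ p ∈ Ioc Z x, ∃ j ∈ Icc 1 x, p * (1 + j * p) ∣ n).card : ℝ) ≤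
      x * (1 + Real.log x) / Z := by
  have hsub : ((Ioc 0 x).filter fun n => ∃ p ∈ Ioc Z x, ∃ j ∈ Icc 1 x, p * (1 + j * p) ∣ n) ⊆
      (Ioc Z x).biUnion fun p => (Icc 1 x).biUnion fun j =>
        (Ioc 0 x).filter fun n => p * (1 + j * p) ∣ n := by
    intro n hn
    obtain ⟨hn1, p, hp, j, hj, hd⟩ := mem_filter.1 hn
    exact mem_biUnion.2 ⟨p, hp, mem_biUnion.2 ⟨j, hj, mem_filter.2 ⟨hn1, hd⟩⟩⟩
  have hharm : ∑ j ∈ Icc 1 x, ((j : ℝ))⁻¹ ≤ 1 + Real.log x := by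
    have := harmonic_le_one_add_log x
    rw [harmonic_eq_sum_Icc] at this
    push_cast at this
    exact this
  have h1 : (((Ioc 0 x).filter fun n => ∃ p ∈ Ioc Z x, ∃ j ∈ Icc 1 x, p * (1 + j * p) ∣ n).card : ℝ)
      ≤ ∑ p ∈ Ioc Z x, ((x : ℝ) * (1 + Real.log x)) * ((p : ℝ) ^ 2)⁻¹ := by
    calc (((Ioc 0 x).filter fun n => ∃ p ∈ Ioc Z x, ∃ j ∈ Icc 1 x, p * (1 + j * p) ∣ n).card : ℝ)
        ≤ (((Ioc Z x).biUnion fun p => (Icc 1 x).biUnion fun j =>
            (Ioc 0 x).filter fun n => p * (1 + j * p) ∣ n).card : ℝ) := by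
          exact_mod_cast card_le_card hsub
      _ ≤ ((∑ p ∈ Ioc Z x, ((Icc 1 x).biUnion fun j =>
            (Ioc 0 x).filter fun n => p * (1 + j * p) ∣ n).card : ℕ) : ℝ) := by
          exact_mod_cast card_biUnion_le
      _ = ∑ p ∈ Ioc Z x, (((Icc 1 x).biUnion fun j =>
            (Ioc 0 x).filter fun n => p * (1 + j * p) ∣ n).card : ℝ) := by push_cast; rfl
      _ ≤ _ := by
          refine sum_le_sum fun p hp => ?_
          have hp0 : (0 : ℝ) < p := by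
            have := (mem_Ioc.1 hp).1
            exact_mod_cast (by omega : 0 < p)
          calc (((Icc 1 x).biUnion fun j =>
              (Ioc 0 x).filter fun n => p * (1 + j * p) ∣ n).card : ℝ)
              ≤ ((∑ j ∈ Icc 1 x, ((Ioc 0 x).filter fun n => p * (1 + j * p) ∣ n).card : ℕ) : ℝ) := by
                exact_mod_cast card_biUnion_le
            _ = ∑ j ∈ Icc 1 x, (((Ioc 0 x).filter fun n => p * (1 + j * p) ∣ n).card : ℝ) := by
                push_cast; rfl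
            _ ≤ ∑ j ∈ Icc 1 x, ((x : ℝ) * ((p : ℝ) ^ 2)⁻¹) * ((j : ℝ))⁻¹ := by
                refine sum_le_sum fun j hj => ?_
                have hj0 : (0 : ℝ) < j := by exact_mod_cast (mem_Icc.1 hj).1
                refine (card_dvd_le x (p * (1 + j * p))).trans ?_
                rw [div_eq_mul_inv, mul_assoc, ← mul_inv]
                gcongr
                push_cast
                nlinarith
            _ = ((x : ℝ) * ((p : ℝ) ^ 2)⁻¹) * ∑ j ∈ Icc 1 x, ((j : ℝ))⁻¹ := by rw [mul_sum]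
            _ ≤ ((x : ℝ) * ((p : ℝ) ^ 2)⁻¹) * (1 + Real.log x) := by gcongr
            _ = _ := by ring
  have hlog : 0 ≤ 1 + Real.log x := by
    have := Real.log_natCast_nonneg x
    linarith
  rcases le_or_gt Z x with hx | hx
  · have h2 := sum_Ioc_inv_sq_le_sub (α := ℝ) hZ hx
    rw [← mul_sum] at h1
    calc _ ≤ _ := h1
      _ ≤ ((x : ℝ) * (1 + Real.log x)) * ((Z : ℝ)⁻¹ - (x : ℝ)⁻¹) := by gcongr
      _ ≤ x * (1 + Real.log x) / Z := by
          rw [div_eq_mul_inv]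
          gcongr
          have : (0 : ℝ) ≤ (x : ℝ)⁻¹ := by positivity
          linarith
  · have h3 : ∑ p ∈ Ioc Z x, ((x : ℝ) * (1 + Real.log x)) * ((p : ℝ) ^ 2)⁻¹ = 0 := by
      rw [Ioc_eq_empty (by omega), sum_empty]
    exact h1.trans (h3.le.trans (by positivity))

lemma sum_factorization (p x : ℕ) :
    ∑ n ∈ Ioc 0 x, n.factorization p = (x.factorial).factorization p := by
  induction x with
  | zero => simp
  | succ x ih =>
    rw [← Finset.insert_Ioc_right_eq_Ioc_add_one (by omega : 0 ≤ x), sum_insert (by simp), ih, Nat.factorial_succ,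
      Nat.factorization_mul (by omega) (Nat.factorial_ne_zero x)]
    rfl

lemma factorial_fac_le {p : ℕ} (hp : p.Prime) (x : ℕ) :
    ((x.factorial.factorization p : ℕ) : ℝ) * Real.log p ≤ 2 * x * (Real.log p / p) := by
  haveI : Fact p.Prime := ⟨hp⟩
  have h := sub_one_mul_padicValNat_factorial (p := p) x
  rw [← Nat.factorization_def _ hp] at h
  have h2 : (p - 1) * (x.factorial.factorization p) ≤ x := by rw [h]; exact Nat.sub_le _ _
  have hp2 : 2 ≤ p := hp.two_le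
  have h3 : ((p : ℝ) - 1) * (x.factorial.factorization p : ℕ) ≤ x := by
    have h4 : (((p - 1) * (x.factorial.factorization p) : ℕ) : ℝ) ≤ x := by exact_mod_cast h2
    rwa [Nat.cast_mul, Nat.cast_sub (by omega), Nat.cast_one] at h4
  have hp2' : (2 : ℝ) ≤ p := by exact_mod_cast hp2
  have h5 : ((x.factorial.factorization p : ℕ) : ℝ) ≤ 2 * x / p := by
    rw [le_div_iff₀ (by linarith)]
    have : (0 : ℝ) ≤ ((x.factorial.factorization p : ℕ) : ℝ) := by positivity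
    nlinarith
  have hlog : 0 ≤ Real.log p := Real.log_nonneg (by linarith)
  calc ((x.factorial.factorization p : ℕ) : ℝ) * Real.log p ≤ (2 * x / p) * Real.log p := by gcongr
    _ = _ := by ring

open Classical in
/-- smooth integers -/
lemma card_smooth : ∃ C : ℝ, 0 ≤ C ∧ ∀ x Z : ℕ, 1 ≤ Z → 2 ≤ x →
    (((Ioc 0 x).filter fun n => x < n * n ∧ ∀ p, p.Prime → p ∣ n → p ≤ Z).card : ℝ) ≤
      x * (4 * (Real.log Z + C) / Real.log x) := by
  obtain ⟨C, hC0, hC⟩ := MP_02fec8_nt.Mert.mertens1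
  refine ⟨C, hC0, fun x Z hZ hx => ?_⟩
  set T := (Ioc 0 x).filter fun n => x < n * n ∧ ∀ p, p.Prime → p ∣ n → p ≤ Z with hT
  have hx1 : (1 : ℝ) < x := by exact_mod_cast (by omega : 1 < x)
  have hlx : 0 < Real.log x := Real.log_pos hx1
  have hnn : ∀ n : ℕ, 0 ≤ ∑ p ∈ Nat.primesLE Z, ((n.factorization p : ℕ) : ℝ) * Real.log p := by
    intro n
    refine sum_nonneg fun p hp => ?_
    have := MP_02fec8_nt.Mert.log_prime_nonneg hp
    positivity
  have h1 : ∀ n ∈ T, Real.log x / 2 ≤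
      ∑ p ∈ Nat.primesLE Z, ((n.factorization p : ℕ) : ℝ) * Real.log p := by
    intro n hn
    obtain ⟨hn1, hn2, hn3⟩ := mem_filter.1 hn
    have hn0 : n ≠ 0 := by have := (mem_Ioc.1 hn1).1; omega
    have hlogn : Real.log n = ∑ p ∈ Nat.primesLE Z, ((n.factorization p : ℕ) : ℝ) * Real.log p := by
      rw [Real.log_nat_eq_sum_factorization, Finsupp.sum]
      apply Finset.sum_subset
      · intro p hp
        rw [Nat.support_factorization, Nat.mem_primeFactors] at hp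
        rw [Nat.mem_primesLE]
        exact ⟨hn3 p hp.1 hp.2.1, hp.1⟩
      · intro p _ hp
        rw [Finsupp.notMem_support_iff] at hp
        rw [hp]; simp
    rw [← hlogn]
    have hn2' : (x : ℝ) ≤ (n : ℝ) * n := by exact_mod_cast hn2.le
    have hnpos : (0 : ℝ) < n := by exact_mod_cast Nat.pos_of_ne_zero hn0
    have := Real.log_le_log (by linarith) hn2'
    rw [Real.log_mul hnpos.ne' hnpos.ne'] at this
    linarith
  have h2 : (T.card : ℝ) * (Real.log x / 2) ≤ 2 * x * (Real.log Z + C) := by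
    calc (T.card : ℝ) * (Real.log x / 2) = ∑ _n ∈ T, Real.log x / 2 := by simp
      _ ≤ ∑ n ∈ T, ∑ p ∈ Nat.primesLE Z, ((n.factorization p : ℕ) : ℝ) * Real.log p :=
          sum_le_sum h1
      _ ≤ ∑ n ∈ Ioc 0 x, ∑ p ∈ Nat.primesLE Z, ((n.factorization p : ℕ) : ℝ) * Real.log p :=
          sum_le_sum_of_subset_of_nonneg (filter_subset _ _) fun n _ _ => hnn n
      _ = ∑ p ∈ Nat.primesLE Z, ((x.factorial.factorization p : ℕ) : ℝ) * Real.log p := by
          rw [sum_comm]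
          refine sum_congr rfl fun p _ => ?_
          rw [← sum_mul, ← sum_factorization]
          push_cast
          rfl
      _ ≤ ∑ p ∈ Nat.primesLE Z, 2 * x * (Real.log p / p) :=
          sum_le_sum fun p hp => factorial_fac_le (Nat.mem_primesLE.1 hp).2 x
      _ = 2 * x * MP_02fec8_nt.Mert.M Z := by rw [← mul_sum]; rfl
      _ ≤ 2 * x * (Real.log Z + C) := by
          have := (abs_le.1 (hC Z hZ)).2
          gcongr
          linarith
  rw [mul_div_assoc', le_div_iff₀ hlx]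
  linarith

lemma card_small (x : ℕ) : (((Ioc 0 x).filter fun n => n * n ≤ x).card : ℝ) ≤ Real.sqrt x := by
  have h1 : ((Ioc 0 x).filter fun n => n * n ≤ x) ⊆ Ioc 0 (Nat.sqrt x) := by
    intro n hn
    obtain ⟨hn1, hn2⟩ := mem_filter.1 hn
    exact mem_Ioc.2 ⟨(mem_Ioc.1 hn1).1, Nat.le_sqrt.2 hn2⟩
  have h2 := card_le_card h1
  rw [Nat.card_Ioc, Nat.sub_zero] at h2
  exact (Nat.cast_le.2 h2).trans Real.nat_sqrt_le_real_sqrt

lemma fine_of {x Z C n : ℕ} (hCZ : C ≤ Z) (hn : n ∈ Ioc 0 x)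
    (h2 : ¬ ∃ p ∈ Ioc Z x, p ^ 2 ∣ n)
    (h3 : ¬ ∃ p ∈ Ioc Z x, ∃ j ∈ Icc 1 x, p * (1 + j * p) ∣ n)
    (h4 : ¬ ∀ p, p.Prime → p ∣ n → p ≤ Z) : Fine C n := by
  push Not at h4
  obtain ⟨p, hp, hpn, hZp⟩ := h4
  have hn0 : 0 < n := (mem_Ioc.1 hn).1
  have hnx : n ≤ x := (mem_Ioc.1 hn).2
  have hpx : p ≤ x := (Nat.le_of_dvd hn0 hpn).trans hnx
  have hpI : p ∈ Ioc Z x := mem_Ioc.2 ⟨hZp, hpx⟩
  refine ⟨p, hp, hCZ.trans hZp.le, hpn, fun h => h2 ⟨p, hpI, h⟩, fun d hd hd1 => ?_⟩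
  by_contra hne
  have hd0 : 0 < d := Nat.pos_of_dvd_of_pos hd hn0
  obtain ⟨j, hj⟩ : p ∣ d - 1 := (Nat.modEq_iff_dvd' (by omega : 1 ≤ d)).1 hd1.symm
  have hdj : d = 1 + j * p := by rw [mul_comm j p, ← hj]; omega
  have hj1 : 1 ≤ j := by
    rcases Nat.eq_zero_or_pos j with h | h
    · subst h; omega
    · exact h
  have hjx : j ≤ x := by
    have : j ≤ j * p := Nat.le_mul_of_pos_right _ hp.pos
    have := Nat.le_of_dvd hn0 hd
    omega
  apply h3
  refine ⟨p, hpI, j, mem_Icc.2 ⟨hj1, hjx⟩, ?_⟩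
  rw [← hdj]
  refine Nat.Coprime.mul_dvd_of_dvd_of_dvd ?_ hpn hd
  rw [hp.coprime_iff_not_dvd]
  intro hpd
  rw [hdj] at hpd
  have h5 : p ∣ 1 := (Nat.dvd_add_left (Dvd.intro_left j rfl)).1 hpd
  exact hp.one_lt.ne' (Nat.dvd_one.1 h5)

open Classical in
lemma card_not_fine : ∃ K : ℝ, 0 ≤ K ∧ ∀ x Z C : ℕ, 1 ≤ Z → 2 ≤ x → C ≤ Z →
    (((Ioc 0 x).filter fun n => ¬ Fine C n).card : ℝ) ≤
      Real.sqrt x + x / Z + x * (1 + Real.log x) / Z + x * (4 * (Real.log Z + K) / Real.log x) := by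
  obtain ⟨K, hK0, hK⟩ := card_smooth
  refine ⟨K, hK0, fun x Z C hZ hx hCZ => ?_⟩
  have hsub : ((Ioc 0 x).filter fun n => ¬ Fine C n) ⊆
      (((((Ioc 0 x).filter fun n => n * n ≤ x) ∪
        ((Ioc 0 x).filter fun n => ∃ p ∈ Ioc Z x, p ^ 2 ∣ n)) ∪
        ((Ioc 0 x).filter fun n => ∃ p ∈ Ioc Z x, ∃ j ∈ Icc 1 x, p * (1 + j * p) ∣ n)) ∪
        ((Ioc 0 x).filter fun n => x < n * n ∧ ∀ p, p.Prime → p ∣ n → p ≤ Z)) := by
    intro n hn
    obtain ⟨hn1, hn2⟩ := mem_filter.1 hn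
    by_contra hcon
    simp only [mem_union, mem_filter, not_or, not_and] at hcon
    obtain ⟨⟨⟨c1, c2⟩, c3⟩, c4⟩ := hcon
    exact hn2 (fine_of hCZ hn1 (c2 hn1) (c3 hn1) (c4 hn1 (not_le.1 (c1 hn1))))
  have h1 := card_small x
  have h2 := card_sq x Z (by omega)
  have h3 := card_one x Z (by omega)
  have h4 := hK x Z hZ hx
  have h5 : (((Ioc 0 x).filter fun n => ¬ Fine C n).card : ℝ) ≤
      (((Ioc 0 x).filter fun n => n * n ≤ x).card : ℝ) +
      (((Ioc 0 x).filter fun n => ∃ p ∈ Ioc Z x, p ^ 2 ∣ n).card : ℝ) +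
      (((Ioc 0 x).filter fun n => ∃ p ∈ Ioc Z x, ∃ j ∈ Icc 1 x, p * (1 + j * p) ∣ n).card : ℝ) +
      (((Ioc 0 x).filter fun n => x < n * n ∧ ∀ p, p.Prime → p ∣ n → p ≤ Z).card : ℝ) := by
    have h6 := (card_le_card hsub).trans ((card_union_le _ _).trans (Nat.add_le_add_right
      ((card_union_le _ _).trans (Nat.add_le_add_right (card_union_le _ _) _)) _))
    exact_mod_cast h6
  linarith

open Classical in
/-- almost all integers are `Fine C` -/
theorem density (C : ℕ) :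
    Tendsto (fun x : ℕ => (((Ioc 0 x).filter fun n => ¬ Fine C n).card : ℝ) / x) atTop (𝓝 0) := by
  obtain ⟨K, hK0, hK⟩ := card_not_fine
  -- the parameter `Z`
  have hL : Tendsto (fun x : ℕ => Real.log x) atTop atTop :=
    Real.tendsto_log_atTop.comp tendsto_natCast_atTop_atTop
  have t1 : Tendsto (fun x : ℕ => (Real.sqrt x)⁻¹) atTop (𝓝 0) :=
    tendsto_inv_atTop_zero.comp (Real.tendsto_sqrt_atTop.comp tendsto_natCast_atTop_atTop)
  have u1 : Tendsto (fun L : ℝ => L⁻¹) atTop (𝓝 0) := tendsto_inv_atTop_zero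
  have u2 : Tendsto (fun L : ℝ => Real.log L / L) atTop (𝓝 0) := by
    have := Real.isLittleO_log_id_atTop.tendsto_div_nhds_zero
    simpa using this
  have t2 : Tendsto (fun x : ℕ => 2 * ((Real.log x)⁻¹ * (Real.log x)⁻¹) + (Real.log x)⁻¹ +
      4 * (3 * (Real.log (Real.log x) / Real.log x) + K * (Real.log x)⁻¹)) atTop (𝓝 0) := by
    have v : Tendsto (fun L : ℝ => 2 * (L⁻¹ * L⁻¹) + L⁻¹ + 4 * (3 * (Real.log L / L) + K * L⁻¹))
        atTop (𝓝 (2 * (0 * 0) + 0 + 4 * (3 * 0 + K * 0))) :=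
      (((u1.mul u1).const_mul 2).add u1).add (((u2.const_mul 3).add (u1.const_mul K)).const_mul 4)
    simp only [mul_zero, add_zero] at v
    exact v.comp hL
  have t3 := t1.add t2
  rw [add_zero] at t3
  refine squeeze_zero' (Eventually.of_forall fun x => by positivity) ?_ t3
  have e1 : ∀ᶠ x : ℕ in atTop, 2 ≤ x := eventually_ge_atTop 2
  have e2 : ∀ᶠ x : ℕ in atTop, max 2 (C : ℝ) ≤ Real.log x := hL.eventually_ge_atTop _
  filter_upwards [e1, e2] with x hx hLx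
  set L := Real.log x with hLdef
  have hL2 : 2 ≤ L := (le_max_left _ _).trans hLx
  have hLC : (C : ℝ) ≤ L := (le_max_right _ _).trans hLx
  have hxpos : (0 : ℝ) < x := by exact_mod_cast (by omega : 0 < x)
  set Z := ⌈L ^ 2⌉₊ with hZ
  have hZ1 : L ^ 2 ≤ Z := Nat.le_ceil _
  have hZ2 : (Z : ℝ) < L ^ 2 + 1 := Nat.ceil_lt_add_one (by positivity)
  have hZ0 : (0 : ℝ) < Z := lt_of_lt_of_le (by positivity) hZ1
  have hZ3 : 1 ≤ Z := by exact_mod_cast hZ0
  have hCZ : C ≤ Z := by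
    have : (C : ℝ) ≤ Z := hLC.trans (le_trans (by nlinarith) hZ1)
    exact_mod_cast this
  have hlogZ : Real.log Z ≤ 3 * Real.log L := by
    have h1 : (Z : ℝ) ≤ L ^ 3 := by nlinarith [sq_nonneg L]
    have := Real.log_le_log hZ0 h1
    rwa [Real.log_pow, Nat.cast_ofNat] at this
  have hmain := hK x Z C hZ3 hx hCZ
  have hLpos : 0 < L := by linarith
  calc (((Ioc 0 x).filter fun n => ¬ Fine C n).card : ℝ) / x
      ≤ (Real.sqrt x + x / Z + x * (1 + L) / Z + x * (4 * (Real.log Z + K) / L)) / x := by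
        gcongr
    _ = Real.sqrt x / x + (2 + L) / Z + 4 * (Real.log Z + K) / L := by
        field_simp
        ring
    _ ≤ (Real.sqrt x)⁻¹ + (2 + L) / L ^ 2 + 4 * (3 * Real.log L + K) / L := by
        have h1 : Real.sqrt x / x = (Real.sqrt x)⁻¹ := Real.sqrt_div_self
        rw [h1]
        gcongr
    _ = _ := by
        field_simp
        ring

end Pool.Agent.Lib.MP_688fd0_co.DEN
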