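import Pool.Agent.Lib.MP_688fd0_co.DEN.H30.Grp
import Pool.Agent.Lib.MP_688fd0_co.DEN.H30.Num
import Pool.Agent.Lib.MP_688fd0_co.MET.H20.Main2

/-!
# Almost all orders

For every `ε > 0` almost all positive integers `n` (natural density) are such that every connected Cayley graph
on every group of order `n` has a cycle through at least `(1 - ε) n` vertices.
-/

set_option autoImplicit false

namespace Pool.Agent.Lib.MP_688fd0_co.DEN

open Finset Filter Topology
open Pool.Agent.Lib.MP_688fd0_co.ASY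
open Pool.Agent.Lib.MP_688fd0_co.MET

universe u

/-- closed generator sequences of length at least `(1 - ε) n` in all groups of order `n` -/
def Good (ε : ℝ) (n : ℕ) : Prop :=
  ∀ (Γ : Type u) [Group Γ] [Fintype Γ], Fintype.card Γ = n → ∀ A : Set Γ,
    (∀ x ∈ A, x⁻¹ ∈ A) → Subgroup.closure A = ⊤ →
    ∃ (k : ℕ) (a : Fin k → Γ), (∀ i, a i ∈ A) ∧
      Function.Injective (fun j : Fin k => ((List.ofFn a).take (j + 1)).prod) ∧
      (List.ofFn a).prod = 1 ∧ 3 ≤ k ∧ (1 - ε) * (n : ℝ) ≤ k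

/-- orders with a prime factor as in `Fine` are good -/
theorem good_of_fine (ε : ℝ) (hε : 0 < ε) (hε1 : ε < 1) : ∃ C : ℕ, ∀ n, Fine C n → Good.{u} ε n := by
  obtain ⟨C, hC⟩ := H20.asym3.{u} ε hε hε1
  refine ⟨C, fun n hn Γ _ _ hcard A hA hgen => ?_⟩
  obtain ⟨p, hp, hCp, h1, h2, h3⟩ := hn
  have hHc : Nat.card (Subgroup.closure A) = n := by
    rw [hgen, Subgroup.card_top, Nat.card_eq_fintype_card, hcard]
  have hidx : C ≤ (derivedSeries (Subgroup.closure A) 2).index := by
    refine hCp.trans (le_index hp ?_ ?_ ?_)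
    · rw [hHc]; exact h1
    · rw [hHc]; exact h2
    · rw [hHc]; exact h3
  obtain ⟨cy, hcy, hl⟩ := hC Γ A hA hgen (Or.inr (Or.inl ⟨A, subset_rfl, hidx⟩))
  rw [hcard] at hl
  exact H18.seq_of_cycle hA hcy hl

/-- **Almost all orders.** -/
theorem almost_all_orders (ε : ℝ) (hε : 0 < ε) (hε1 : ε < 1) :
    Tendsto (fun x : ℕ => (Nat.card {n : ℕ // 1 ≤ n ∧ n ≤ x ∧ Good.{u} ε n} : ℝ) / x) atTop (𝓝 1) := by
  classical
  obtain ⟨C, hC⟩ := good_of_fine.{u} ε hε hε1
  have h0 := (density C).const_sub 1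
  rw [sub_zero] at h0
  have hcard : ∀ x : ℕ, Nat.card {n : ℕ // 1 ≤ n ∧ n ≤ x ∧ Good.{u} ε n} =
      ((Ioc 0 x).filter fun n => Good.{u} ε n).card := by
    intro x
    rw [← Nat.card_eq_finsetCard]
    refine Nat.card_congr (Equiv.subtypeEquivRight fun n => ?_)
    rw [mem_filter, mem_Ioc, and_assoc]
    rfl
  refine tendsto_of_tendsto_of_tendsto_of_le_of_le' h0 tendsto_const_nhds ?_ ?_
  · filter_upwards [eventually_ge_atTop 1] with x hx
    have hxpos : (0 : ℝ) < x := by exact_mod_cast hx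
    rw [hcard, sub_le_iff_le_add, ← add_div, le_div_iff₀ hxpos, one_mul]
    have h1 : Ioc 0 x ⊆ ((Ioc 0 x).filter fun n => Good.{u} ε n) ∪
        ((Ioc 0 x).filter fun n => ¬ Fine C n) := by
      intro n hn
      by_cases h : Fine C n
      · exact mem_union_left _ (mem_filter.2 ⟨hn, hC n h⟩)
      · exact mem_union_right _ (mem_filter.2 ⟨hn, h⟩)
    have h2 := (card_le_card h1).trans (card_union_le _ _)
    rw [Nat.card_Ioc, Nat.sub_zero] at h2
    exact_mod_cast h2
  · filter_upwards [eventually_ge_atTop 1] with x hx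
    have hxpos : (0 : ℝ) < x := by exact_mod_cast hx
    rw [hcard, div_le_one hxpos]
    have h2 := card_le_card (filter_subset (fun n => Good.{u} ε n) (Ioc 0 x))
    rw [Nat.card_Ioc, Nat.sub_zero] at h2
    exact_mod_cast h2

end Pool.Agent.Lib.MP_688fd0_co.DEN
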